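import Pool.Agent.K1H30.OP2.Sub2
import Pool.Agent.K1H54.LO.Tra

/-!
The part of the perturbation which cancels a given trilinear form on the span of the modes.
-/

open Set Filter Topology MeasureTheory

set_option autoImplicit false

namespace Pool.Agent.K1H54.L3

open Pool.Agent.Y5 Pool.Agent.Y5.D Pool.Agent.Y5.E Pool.Agent.K1H54.LO Pool.Agent.K1H54.L2
open Pool.Agent.K1H30.OP2 (Md)
open Pool.Agent.K1H30.OP (l2_nonneg h1_nonneg A1_nonneg rap_add rap_neg ot_add ot_neg pair_add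
  pair_neg sumr)

/-- Conservative trilinear forms bounded by the maximum of the advecting field, up to terms of
order `s₀`. -/
structure TF (s₀ M C : ℝ) (β : Fam → Fam → Fam → ℝ) : Prop where
  range : ∀ V W, OT V → Rap V → OT W → Rap W → ∃ G, OT G ∧ Rap G ∧
    ∀ Z, OT Z → Rap Z → β V W Z = pair G Z
  add1 : ∀ V V' W Z, OT V → Rap V → OT V' → Rap V' → OT W → Rap W → OT Z → Rap Z →
    β (fun k => V k + V' k) W Z = β V W Z + β V' W Z
  smul1 : ∀ (a : ℝ) (V W Z : Fam), OT V → Rap V → OT W → Rap W → OT Z → Rap Z →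
    β (fun k => a • V k) W Z = a * β V W Z
  skew : ∀ V W Z, OT V → Rap V → OT W → Rap W → OT Z → Rap Z → β V W Z = -β V Z W
  bnd : ∀ V W Z, OT V → Rap V → OT W → Rap W → OT Z → Rap Z → ∀ X, (∀ y, ‖fieldOf V y‖ ≤ X) →
    |β V W Z| ≤ M * ((X + A1 (s₀ - 1) V) * h1 W) * l2 Z
  low : ∀ V W Z, OT V → Rap V → OT W → Rap W → OT Z → Rap Z →
    |β V W Z| ≤ C * l2 V * A1 1 W * l2 Z

/-- the form which cancels `β` on the span of the modes -/
noncomputable def bz {I : Type} (g : I → Fam) (β : Fam → Fam → Fam → ℝ) (V W Z : Fam) : ℝ :=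
  -(β (Pg g V) (Pg g W) Z + β (Pg g V) W (Pg g Z) - β (Pg g V) (Pg g W) (Pg g Z))

section
variable {I : Type} {g : I → Fam} {S : I → Finset Z3} {R : I → ℝ} {V W Z : Fam}
  {β : Fam → Fam → Fam → ℝ} {s₀ M C : ℝ}

lemma TF.zero1 (h : TF s₀ M C β) (hW : OT W) (hW' : Rap W) (hZ : OT Z) (hZ' : Rap Z) :
    β (fun _ => 0) W Z = 0 := by
  have h1 := h.smul1 0 (fun _ => 0) W Z zero_fam.1 zero_fam.2 hW hW' hZ hZ'
  simpa using h1

lemma TF.zero3 (h : TF s₀ M C β) (hV : OT V) (hV' : Rap V) (hW : OT W) (hW' : Rap W) :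
    β V W (fun _ => 0) = 0 := by
  obtain ⟨G, _, _, h3⟩ := h.range V W hV hV' hW hW'
  rw [h3 _ zero_fam.1 zero_fam.2]
  unfold pair
  simp

lemma TF.zero2 (h : TF s₀ M C β) (hV : OT V) (hV' : Rap V) (hZ : OT Z) (hZ' : Rap Z) :
    β V (fun _ => 0) Z = 0 := by
  rw [h.skew V _ Z hV hV' zero_fam.1 zero_fam.2 hZ hZ', h.zero3 hV hV' hZ hZ', neg_zero]

lemma bz_range (h : TF s₀ M C β) (hm : Md g S R) (hV : Rap V)
    (hW : OT W) (hWr : Rap W) : ∃ G, OT G ∧ Rap G ∧ ∀ Z, OT Z → Rap Z → bz g β V W Z = pair G Z := by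
  obtain ⟨G1, a1, a2, a3⟩ := h.range (Pg g V) (Pg g W) (hm.Pg_ot V) (hm.Pg_rap hV) (hm.Pg_ot W)
    (hm.Pg_rap hWr)
  obtain ⟨G2, b1, b2, b3⟩ := h.range (Pg g V) W (hm.Pg_ot V) (hm.Pg_rap hV) hW hWr
  have c1 : OT (Pg g G2) := hm.Pg_ot _
  have c2 : Rap (Pg g G2) := hm.Pg_rap b2
  have d1 : OT (Pg g G1) := hm.Pg_ot _
  have d2 : Rap (Pg g G1) := hm.Pg_rap a2
  refine ⟨fun k => -((fun k => G1 k + Pg g G2 k) k + (fun k => -Pg g G1 k) k),
    ot_neg (ot_add (ot_add a1 c1) (ot_neg d1)), rap_neg (rap_add (rap_add a2 c2) (rap_neg d2)),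
    fun Z hZ hZr => ?_⟩
  rw [pair_neg, pair_add (rap_add a2 c2) (rap_neg d2) hZr, pair_add a2 c2 hZr, pair_neg]
  unfold bz
  rw [a3 Z hZ hZr, b3 _ (hm.Pg_ot Z) (hm.Pg_rap hZr), a3 _ (hm.Pg_ot Z) (hm.Pg_rap hZr),
    ← hm.Pg_adj b2 hZr, ← hm.Pg_adj a2 hZr]
  ring

lemma bz_add1 (h : TF s₀ M C β) (hm : Md g S R) {V' : Fam} (hV : Rap V) (hV' : Rap V')
    (hW : OT W) (hWr : Rap W) (hZ : OT Z) (hZr : Rap Z) :
    bz g β (fun k => V k + V' k) W Z = bz g β V W Z + bz g β V' W Z := by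
  unfold bz
  rw [hm.Pg_add, h.add1 _ _ _ _ (hm.Pg_ot V) (hm.Pg_rap hV) (hm.Pg_ot V') (hm.Pg_rap hV')
      (hm.Pg_ot W) (hm.Pg_rap hWr) hZ hZr,
    h.add1 _ _ _ _ (hm.Pg_ot V) (hm.Pg_rap hV) (hm.Pg_ot V') (hm.Pg_rap hV')
      hW hWr (hm.Pg_ot Z) (hm.Pg_rap hZr),
    h.add1 _ _ _ _ (hm.Pg_ot V) (hm.Pg_rap hV) (hm.Pg_ot V') (hm.Pg_rap hV')
      (hm.Pg_ot W) (hm.Pg_rap hWr) (hm.Pg_ot Z) (hm.Pg_rap hZr)]
  ring

lemma bz_smul1 (h : TF s₀ M C β) (hm : Md g S R) (a : ℝ) (hV : Rap V)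
    (hW : OT W) (hWr : Rap W) (hZ : OT Z) (hZr : Rap Z) :
    bz g β (fun k => a • V k) W Z = a * bz g β V W Z := by
  unfold bz
  rw [hm.Pg_smul, h.smul1 a _ _ _ (hm.Pg_ot V) (hm.Pg_rap hV) (hm.Pg_ot W) (hm.Pg_rap hWr) hZ hZr,
    h.smul1 a _ _ _ (hm.Pg_ot V) (hm.Pg_rap hV) hW hWr (hm.Pg_ot Z) (hm.Pg_rap hZr),
    h.smul1 a _ _ _ (hm.Pg_ot V) (hm.Pg_rap hV) (hm.Pg_ot W) (hm.Pg_rap hWr)
      (hm.Pg_ot Z) (hm.Pg_rap hZr)]
  ring

lemma bz_skew (h : TF s₀ M C β) (hm : Md g S R) (hV : Rap V)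
    (hW : OT W) (hWr : Rap W) (hZ : OT Z) (hZr : Rap Z) :
    bz g β V W Z = -bz g β V Z W := by
  unfold bz
  rw [h.skew _ _ _ (hm.Pg_ot V) (hm.Pg_rap hV) (hm.Pg_ot W) (hm.Pg_rap hWr) hZ hZr,
    h.skew _ _ _ (hm.Pg_ot V) (hm.Pg_rap hV) hW hWr (hm.Pg_ot Z) (hm.Pg_rap hZr),
    h.skew _ _ _ (hm.Pg_ot V) (hm.Pg_rap hV) (hm.Pg_ot W) (hm.Pg_rap hWr)
      (hm.Pg_ot Z) (hm.Pg_rap hZr)]
  ring

/-- On the high frequencies, a weight with a smaller exponent is smaller. -/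
lemma Pg_A1_high (hm : Md g S R) {N₂ s : ℝ} (hN : 1 ≤ N₂) (hb : ∀ i, N₂ ≤ R i) (hs : s ≤ 2)
    (h0 : s₀ ≤ s) (hV : Rap V) :
    A1 (s₀ - 1) (Pg g V) ≤ N₂ ^ (s₀ - s) * A1 (s - 1) V := by
  have h1 : A1 (s₀ - 1) (Pg g V) ≤ N₂ ^ (s₀ - s) * A1 (s - 1) (Pg g V) := by
    unfold A1
    rw [← tsum_mul_left]
    have hr := hm.Pg_rap hV
    refine Summable.tsum_le_tsum (fun k => ?_) (sumr hr (by linarith))
      ((sumr hr (by linarith)).mul_left _)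
    by_cases hk : ∃ i, k ∈ S i
    · obtain ⟨i, hi⟩ := hk
      have h2 : N₂ ≤ ‖vec k‖ := by rw [hm.sph i k hi]; exact hb i
      have h3 : 0 < ‖vec k‖ := by linarith
      have h4 : ‖vec k‖ ^ (s₀ - 1) = ‖vec k‖ ^ (s₀ - s) * ‖vec k‖ ^ (s - 1) := by
        rw [← Real.rpow_add h3]
        congr 1
        ring
      have h5 : ‖vec k‖ ^ (s₀ - s) ≤ N₂ ^ (s₀ - s) :=
        Real.rpow_le_rpow_of_nonpos (by linarith) h2 (by linarith)
      rw [h4, mul_assoc]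
      exact mul_le_mul_of_nonneg_right h5 (by positivity)
    · push Not at hk
      rw [hm.Pg_not V hk]
      simp
  refine h1.trans (mul_le_mul_of_nonneg_left (hm.Pg_A1 hV (by linarith)) ?_)
  have : (0 : ℝ) < N₂ := by linarith
  positivity

lemma bz_small (h : TF s₀ M C β) (hM : 0 ≤ M) (hm : Md g S R) {N₂ s δ : ℝ} (hδ : 0 ≤ δ)
    (hN : 1 ≤ N₂) (hb : ∀ i, N₂ ≤ R i) (hs : s ≤ 2) (h0 : s₀ ≤ s)
    (hsup : ∀ i y, ‖fieldOf (g i) y‖ ≤ δ * R i ^ (s - 1) * √((S i).card : ℝ))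
    (hV : Rap V) (hW : OT W) (hWr : Rap W) (hZ : OT Z) (hZr : Rap Z) :
    |bz g β V W Z| ≤ 3 * M * (δ + N₂ ^ (s₀ - s)) * (A1 (s - 1) V * h1 W) * l2 Z := by
  have o1 := hm.Pg_ot V
  have o2 := hm.Pg_ot W
  have o3 := hm.Pg_ot Z
  have r1 := hm.Pg_rap hV
  have r2 := hm.Pg_rap hWr
  have r3 := hm.Pg_rap hZr
  have hX := hm.Pg_sup hV hδ (by linarith) hsup
  set X := δ * A1 (s - 1) V with hXd
  have hN0 : (0 : ℝ) < N₂ := by linarith
  have hX0 : 0 ≤ X := mul_nonneg hδ (A1_nonneg _ _)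
  have hA := Pg_A1_high (s₀ := s₀) hm hN hb hs h0 hV
  have key : ∀ W' Z' : Fam, OT W' → Rap W' → OT Z' → Rap Z' → h1 W' ≤ h1 W → l2 Z' ≤ l2 Z →
      |β (Pg g V) W' Z'| ≤ M * (δ + N₂ ^ (s₀ - s)) * (A1 (s - 1) V * h1 W) * l2 Z := by
    intro W' Z' c1 c2 c3 c4 c5 c6
    refine (h.bnd _ _ _ o1 r1 c1 c2 c3 c4 X hX).trans ?_
    have e1 : X + A1 (s₀ - 1) (Pg g V) ≤ (δ + N₂ ^ (s₀ - s)) * A1 (s - 1) V := by
      rw [hXd, add_mul]
      linarith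
    have e2 := h1_nonneg W'
    have e3 := l2_nonneg Z'
    have e4 := A1_nonneg (s₀ - 1) (Pg g V)
    have e5 := A1_nonneg (s - 1) V
    have e6 := h1_nonneg W
    calc M * ((X + A1 (s₀ - 1) (Pg g V)) * h1 W') * l2 Z'
        ≤ M * (((δ + N₂ ^ (s₀ - s)) * A1 (s - 1) V) * h1 W) * l2 Z := by gcongr
      _ = _ := by ring
  unfold bz
  rw [abs_neg]
  refine (abs_sub _ _).trans ((add_le_add (abs_add_le _ _) le_rfl).trans ?_)
  refine (add_le_add (add_le_add (key _ _ o2 r2 hZ hZr (hm.Pg_h1 hWr) le_rfl)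
    (key _ _ hW hWr o3 r3 le_rfl (hm.Pg_l2 hZr)))
    (key _ _ o2 r2 o3 r3 (hm.Pg_h1 hWr) (hm.Pg_l2 hZr))).trans (le_of_eq ?_)
  ring

lemma bz_low (h : TF s₀ M C β) (hC : 0 ≤ C) (hm : Md g S R)
    (hV : Rap V) (hW : OT W) (hWr : Rap W) (hZ : OT Z) (hZr : Rap Z) :
    |bz g β V W Z| ≤ 3 * C * l2 V * A1 1 W * l2 Z := by
  have o1 := hm.Pg_ot V
  have o2 := hm.Pg_ot W
  have o3 := hm.Pg_ot Z
  have r1 := hm.Pg_rap hV
  have r2 := hm.Pg_rap hWr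
  have r3 := hm.Pg_rap hZr
  have key : ∀ W' Z' : Fam, OT W' → Rap W' → OT Z' → Rap Z' → A1 1 W' ≤ A1 1 W → l2 Z' ≤ l2 Z →
      |β (Pg g V) W' Z'| ≤ C * l2 V * A1 1 W * l2 Z := by
    intro W' Z' c1 c2 c3 c4 c5 c6
    refine (h.low _ _ _ o1 r1 c1 c2 c3 c4).trans ?_
    have e1 := hm.Pg_l2 hV
    have e2 := A1_nonneg 1 W'
    have e3 := l2_nonneg Z'
    have e4 := l2_nonneg (Pg g V)
    have e5 := l2_nonneg V
    have e6 := A1_nonneg 1 W
    gcongr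
  unfold bz
  rw [abs_neg]
  refine (abs_sub _ _).trans ((add_le_add (abs_add_le _ _) le_rfl).trans ?_)
  refine (add_le_add (add_le_add (key _ _ o2 r2 hZ hZr (hm.Pg_A1 hWr le_rfl) le_rfl)
    (key _ _ hW hWr o3 r3 le_rfl (hm.Pg_l2 hZr)))
    (key _ _ o2 r2 o3 r3 (hm.Pg_A1 hWr le_rfl) (hm.Pg_l2 hZr))).trans (le_of_eq ?_)
  ring

lemma bz_thin1 (h : TF s₀ M C β) (hm : Md g S R) {N₂ : ℝ} (hb : ∀ i, N₂ ≤ R i)
    (hW : OT W) (hWr : Rap W) (hZ : OT Z) (hZr : Rap Z)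
    (h0 : ∀ k, N₂ ≤ ‖vec k‖ → V k = 0) : bz g β V W Z = 0 := by
  unfold bz
  rw [Pool.Agent.K1H30.OP2.Pg_zero hm hb h0, h.zero1 (hm.Pg_ot W) (hm.Pg_rap hWr) hZ hZr,
    h.zero1 hW hWr (hm.Pg_ot Z) (hm.Pg_rap hZr),
    h.zero1 (hm.Pg_ot W) (hm.Pg_rap hWr) (hm.Pg_ot Z) (hm.Pg_rap hZr)]
  ring

lemma bz_thin2 (h : TF s₀ M C β) (hm : Md g S R) {N₂ : ℝ} (hb : ∀ i, N₂ ≤ R i) (hV : Rap V)
    (hW : OT W) (hWr : Rap W) (hZ : OT Z) (hZr : Rap Z)
    (h0 : ∀ k, N₂ ≤ ‖vec k‖ → W k = 0) (h0' : ∀ k, N₂ ≤ ‖vec k‖ → Z k = 0) :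
    bz g β V W Z = 0 := by
  unfold bz
  rw [Pool.Agent.K1H30.OP2.Pg_zero hm hb h0, Pool.Agent.K1H30.OP2.Pg_zero hm hb h0',
    h.zero2 (hm.Pg_ot V) (hm.Pg_rap hV) hZ hZr, h.zero3 (hm.Pg_ot V) (hm.Pg_rap hV) hW hWr,
    h.zero3 (hm.Pg_ot V) (hm.Pg_rap hV) zero_fam.1 zero_fam.2]
  ring

/-- On the span of the modes, the form is cancelled. -/
lemma bz_Sy (hm : Md g S R) (w : I → ℝ) (Z : Fam) :
    bz g β (Sy g w) (Sy g w) Z = -β (Sy g w) (Sy g w) Z := by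
  unfold bz
  rw [hm.Pg_Sy]
  ring

/-- the form is conservative, and its bounds -/
lemma bz_fpert (h : TF s₀ M C β) (hM : 0 ≤ M) (hC : 0 ≤ C) (hm : Md g S R) {N₂ s δ : ℝ}
    (hδ : 0 ≤ δ) (hN : 1 ≤ N₂) (hb : ∀ i, N₂ ≤ R i) (hs : s ≤ 2) (h0 : s₀ ≤ s)
    (hsup : ∀ i y, ‖fieldOf (g i) y‖ ≤ δ * R i ^ (s - 1) * √((S i).card : ℝ)) :
    FPert s (3 * M * (δ + N₂ ^ (s₀ - s))) (3 * C) (fun k => N₂ ≤ ‖vec k‖) (bz g β) where
  range := fun V W hV hVr hW hWr => bz_range h hm hVr hW hWr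
  add1 := fun V V' W Z hV hVr hV' hVr' hW hWr hZ hZr => bz_add1 h hm hVr hVr' hW hWr hZ hZr
  smul1 := fun a V W Z hV hVr hW hWr hZ hZr => bz_smul1 h hm a hVr hW hWr hZ hZr
  skew := fun V W Z hV hVr hW hWr hZ hZr => bz_skew h hm hVr hW hWr hZ hZr
  small := fun V W Z hV hVr hW hWr hZ hZr => by
    refine (bz_small h hM hm hδ hN hb hs h0 hsup hVr hW hWr hZ hZr).trans ?_
    have e1 := l2_nonneg W
    have e2 := A1_nonneg s V
    have e3 : 0 ≤ A1 s V * l2 W := by positivity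
    have e4 := l2_nonneg Z
    have : (0 : ℝ) < N₂ := by linarith
    gcongr
    linarith
  low := fun V W Z hV hVr hW hWr hZ hZr => bz_low h hC hm hVr hW hWr hZ hZr
  thin1 := fun V W Z hV hVr hW hWr hZ hZr h' => bz_thin1 h hm hb hW hWr hZ hZr h'
  thin2 := fun V W Z hV hVr hW hWr hZ hZr h' h'' => bz_thin2 h hm hb hVr hW hWr hZ hZr h' h''

end

/-- sums of conservative forms -/
lemma fpert_add {s δ δ' C C' : ℝ} {Q : Z3 → Prop} {β β' : Fam → Fam → Fam → ℝ}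
    (h : FPert s δ C Q β) (h' : FPert s δ' C' Q β') :
    FPert s (δ + δ') (C + C') Q (fun V W Z => β V W Z + β' V W Z) where
  range := fun V W hV hVr hW hWr => by
    obtain ⟨G, a1, a2, a3⟩ := h.range V W hV hVr hW hWr
    obtain ⟨G', b1, b2, b3⟩ := h'.range V W hV hVr hW hWr
    refine ⟨fun k => G k + G' k, ot_add a1 b1, rap_add a2 b2, fun Z hZ hZr => ?_⟩
    rw [pair_add a2 b2 hZr, a3 Z hZ hZr, b3 Z hZ hZr]
  add1 := fun V V' W Z a b c d e f i j => by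
    rw [h.add1 V V' W Z a b c d e f i j, h'.add1 V V' W Z a b c d e f i j]
    ring
  smul1 := fun x V W Z a b c d e f => by
    rw [h.smul1 x V W Z a b c d e f, h'.smul1 x V W Z a b c d e f]
    ring
  skew := fun V W Z a b c d e f => by
    rw [h.skew V W Z a b c d e f, h'.skew V W Z a b c d e f]
    ring
  small := fun V W Z a b c d e f => by
    refine (abs_add_le _ _).trans ((add_le_add (h.small V W Z a b c d e f)
      (h'.small V W Z a b c d e f)).trans (le_of_eq ?_))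
    ring
  low := fun V W Z a b c d e f => by
    refine (abs_add_le _ _).trans ((add_le_add (h.low V W Z a b c d e f)
      (h'.low V W Z a b c d e f)).trans (le_of_eq ?_))
    ring
  thin1 := fun V W Z a b c d e f g => by
    rw [h.thin1 V W Z a b c d e f g, h'.thin1 V W Z a b c d e f g, add_zero]
  thin2 := fun V W Z a b c d e f g i => by
    rw [h.thin2 V W Z a b c d e f g i, h'.thin2 V W Z a b c d e f g i, add_zero]

lemma one_le_vec {k : Z3} (hk : k ≠ 0) : 1 ≤ ‖vec k‖ := by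
  rw [EuclideanSpace.norm_eq, Real.one_le_sqrt]
  obtain ⟨i, hi⟩ := Function.ne_iff.1 hk
  have hi' : k i ≠ 0 := hi
  have h4 : (1 : ℤ) ≤ (k i) ^ 2 := by
    have := sq_pos_of_pos (abs_pos.2 hi')
    rw [sq_abs] at this
    omega
  have h3 : (1 : ℝ) ≤ ‖(vec k) i‖ ^ 2 := by
    rw [Real.norm_eq_abs, sq_abs]
    have : (vec k) i = (k i : ℝ) := rfl
    rw [this]
    exact_mod_cast h4
  exact h3.trans (Finset.single_le_sum (f := fun i => ‖(vec k) i‖ ^ 2)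
    (fun _ _ => by positivity) (Finset.mem_univ i))

lemma ot_zero {V : Fam} (hV : OT V) : V 0 = 0 := by
  have h1 := hV.odd 0
  rw [neg_zero] at h1
  have h2 : (2 : ℝ) • V 0 = 0 := by
    rw [two_smul]
    nth_rewrite 1 [h1]
    exact neg_add_cancel _
  exact (smul_eq_zero.1 h2).resolve_left two_ne_zero

/-- the frequencies are at least one, for odd families -/
lemma A1_mono {V : Fam} (hV : OT V) (hVr : Rap V) {s t : ℝ} (hst : s ≤ t) (ht : t ≤ 1) :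
    A1 s V ≤ A1 t V := by
  unfold A1
  refine Summable.tsum_le_tsum (fun k => ?_) (sumr hVr (hst.trans ht)) (sumr hVr ht)
  by_cases hk : k = 0
  · rw [hk, ot_zero hV]
    simp
  · exact mul_le_mul_of_nonneg_right (Real.rpow_le_rpow_of_exponent_le (one_le_vec hk) hst)
      (norm_nonneg _)

/-- weaker bounds -/
lemma fpert_mono {s δ C : ℝ} {Q : Z3 → Prop} {β : Fam → Fam → Fam → ℝ} (hs : s ≤ 1) (hδ : 0 ≤ δ)
    (h : FPert s δ C Q β) : FPert 1 δ C (fun _ => True) β where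
  range := h.range
  add1 := h.add1
  smul1 := h.smul1
  skew := h.skew
  small := fun V W Z a b c d e f => by
    refine (h.small V W Z a b c d e f).trans ?_
    have e1 := l2_nonneg W
    have e2 := h1_nonneg W
    have e3 := l2_nonneg Z
    have e4 := A1_mono a b hs le_rfl
    have e5 := A1_mono a b (s := s - 1) (t := 1 - 1) (by linarith) (by norm_num)
    gcongr
  low := h.low
  thin1 := fun V W Z a b c d e f g => by
    have : V = fun _ => 0 := funext fun k => g k trivial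
    have h1 := h.smul1 0 V W Z a b c d e f
    rw [zero_mul] at h1
    rw [← h1]
    congr 1
    rw [this]
    simp
  thin2 := fun V W Z a b c d e f g i => by
    have h1 : Z = fun _ => 0 := funext fun k => i k trivial
    obtain ⟨G, _, _, h3⟩ := h.range V W a b c d
    rw [h3 Z e f, h1]
    unfold pair
    simp

/-- a form with bounds by the maximum, as a conservative form of order 1 -/
lemma tf_fpert {s₀ M C : ℝ} {β : Fam → Fam → Fam → ℝ} (hs : s₀ ≤ 1) (hM : 0 ≤ M)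
    (h : TF s₀ M C β) : FPert 1 (2 * M) C (fun _ => True) β where
  range := h.range
  add1 := h.add1
  smul1 := h.smul1
  skew := h.skew
  small := fun V W Z a b c d e f => by
    have hX : ∀ y, ‖fieldOf V y‖ ≤ A1 (1 - 1) V := by
      intro y
      unfold fieldOf A1
      refine (norm_tsum_le_tsum_norm (Pool.Agent.K1H54.LO.sin_summ b y).norm).trans ?_
      refine Summable.tsum_le_tsum (fun k => ?_) (Pool.Agent.K1H54.LO.sin_summ b y).norm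
        (sumr b (by norm_num))
      rw [norm_smul, sub_self, Real.rpow_zero]
      gcongr
      exact Real.abs_sin_le_one _
    refine (h.bnd V W Z a b c d e f _ hX).trans ?_
    have e1 := l2_nonneg W
    have e2 := h1_nonneg W
    have e3 := l2_nonneg Z
    have e4 := A1_nonneg 1 V
    have e5 := A1_mono a b (s := s₀ - 1) (t := 1 - 1) (by linarith) (by norm_num)
    have e6 := A1_nonneg (1 - 1) V
    have e7 : 0 ≤ A1 1 V * l2 W := by positivity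
    calc M * ((A1 (1 - 1) V + A1 (s₀ - 1) V) * h1 W) * l2 Z
        ≤ M * ((A1 (1 - 1) V + A1 (1 - 1) V) * h1 W) * l2 Z := by gcongr
      _ = 2 * M * (0 + A1 (1 - 1) V * h1 W) * l2 Z := by ring
      _ ≤ 2 * M * (A1 1 V * l2 W + A1 (1 - 1) V * h1 W) * l2 Z := by gcongr
  low := h.low
  thin1 := fun V W Z a b c d e f g => by
    have : V = fun _ => 0 := funext fun k => g k trivial
    rw [this]
    exact h.zero1 c d e f
  thin2 := fun V W Z a b c d e f g i => by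
    have h1 : Z = fun _ => 0 := funext fun k => i k trivial
    rw [h1]
    exact h.zero3 a b c d

end Pool.Agent.K1H54.L3
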