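import Mathlib

/-!
Definitions for the theorem on lower-order perturbations of the Navier-Stokes equations.
-/

open Set

set_option autoImplicit false

namespace Pool.Agent.K1H54.St

/-- the space `ℝ³` -/
abbrev E := EuclideanSpace ℝ (Fin 3)

/-- the frequency `k ∈ ℤ³` as a vector -/
noncomputable def fq (k : Fin 3 → ℤ) : E := WithLp.toLp 2 (fun i => (k i : ℝ))

/-- the sine series with the coefficients `V` -/
noncomputable def ser (V : (Fin 3 → ℤ) → E) (y : E) : E :=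
  ∑' k, Real.sin (2 * Real.pi * inner ℝ (fq k) y) • V k

/-- coefficients of divergence-free sine series: `V(-k) = -V(k)` and `k · V(k) = 0` -/
structure Cf (V : (Fin 3 → ℤ) → E) : Prop where
  odd : ∀ k, V (-k) = -V k
  tan : ∀ k, inner ℝ (fq k) (V k) = 0

/-- Smooth odd `ℤ³`-periodic divergence-free fields (with rapidly decreasing coefficients). -/
def Fld (v : E → E) : Prop :=
  ∃ V, Cf V ∧ (∀ m : ℕ, ∃ M, ∀ k, ‖fq k‖ ^ m * ‖V k‖ ≤ M) ∧ v = ser V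

/-- trigonometric polynomials among the fields -/
def Trig (v : E → E) : Prop := ∃ V, Cf V ∧ (∃ R, ∀ k, V k ≠ 0 → ‖fq k‖ ≤ R) ∧ v = ser V

/-- the cell of periodicity -/
def cell : Set E := {y | ∀ i, 0 ≤ y i ∧ y i < 1}

/-- `∫ v · w` -/
noncomputable def ip (v w : E → E) : ℝ := ∫ y in cell, inner ℝ (v y) (w y)

/-- `∫ |∇v|²` -/
noncomputable def dir (v : E → E) : ℝ :=
  ∫ y in cell, ∑ i : Fin 3, ‖fderiv ℝ v y (EuclideanSpace.single i 1)‖ ^ 2

/-- `∫ ((v · ∇) v) · w` -/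
noncomputable def cnv (v w : E → E) : ℝ := ∫ y in cell, inner ℝ (fderiv ℝ v y (v y)) (w y)

/-- the coefficients `v̂(k)` of the sine series of `v` -/
noncomputable def hat (v : E → E) (k : Fin 3 → ℤ) : E :=
  ∫ y in cell, Real.sin (2 * Real.pi * inner ℝ (fq k) y) • v y

/-- `∑ |k|^r |v̂(k)|` -/
noncomputable def wie (r : ℝ) (v : E → E) : ℝ := ∑' k, ‖fq k‖ ^ r * ‖hat v k‖

/-- `⟨(-Δ)^r v, v⟩` -/
noncomputable def sob (r : ℝ) (v : E → E) : ℝ :=
  ∑' k, (2 * Real.pi * ‖fq k‖) ^ (2 * r) * ‖hat v k‖ ^ 2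

/-- `⟨(-Δ)^α v, w⟩` -/
noncomputable def lap (α : ℝ) (v w : E → E) : ℝ :=
  ∑' k, (2 * Real.pi * ‖fq k‖) ^ (2 * α) * inner ℝ (hat v k) (hat w k)

/-- Conservative bilinear operators on the fields: `∫ B(v, w) · w = 0`; and
`‖B(v, w)‖ ≤ C ‖v‖ ∑ |k| |ŵ(k)|` for some `C` (norms of `L²`). -/
structure Cons (B : (E → E) → (E → E) → E → E) : Prop where
  field : ∀ v w, Fld v → Fld w → Fld (B v w)
  add1 : ∀ v v' w, Fld v → Fld v' → Fld w → B (v + v') w = B v w + B v' w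
  smul1 : ∀ (a : ℝ) (v w : E → E), Fld v → Fld w → B (a • v) w = a • B v w
  add2 : ∀ v w w', Fld v → Fld w → Fld w' → B v (w + w') = B v w + B v w'
  smul2 : ∀ (a : ℝ) (v w : E → E), Fld v → Fld w → B v (a • w) = a • B v w
  energy : ∀ v w, Fld v → Fld w → ip (B v w) w = 0
  low : ∃ C, ∀ v w, Fld v → Fld w → √(ip (B v w) (B v w)) ≤ C * (√(ip v v) * wie 1 w)

/-- Smooth solutions on `[0, T)` of `∂ₜ u + (u · ∇) u + ∇p = - ν (-Δ)^α u + N(u, u)`,
`div u = 0`: the coefficients decrease rapidly, uniformly on `[0, T']` for `T' < T`, and the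
equation is tested with the trigonometric polynomials. -/
structure Sol (ν α : ℝ) (N : (E → E) → (E → E) → E → E) (T : ℝ) (u : ℝ → E → E) : Prop where
  reg : ∃ V : ℝ → (Fin 3 → ℤ) → E, (∀ t ∈ Ico 0 T, Cf (V t) ∧ u t = ser (V t)) ∧
    ∀ m : ℕ, ∀ T' < T, ∃ M, ∀ t ∈ Icc 0 T', ∀ k, ‖fq k‖ ^ m * ‖V t k‖ ≤ M
  eqn : ∀ z, Trig z → ∀ t ∈ Ico 0 T, HasDerivWithinAt (fun τ => ip (u τ) z)
    (-(ν * lap α (u t) z) - cnv (u t) z + ip (N (u t) (u t)) z) (Ico 0 T) t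

end Pool.Agent.K1H54.St
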