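import Pool.Agent.K1H54.LO3.Main3
import Pool.Agent.K1H54.LO3.St

/-!
The theorem in terms of the definitions of `St`.
-/

open Set

set_option autoImplicit false

namespace Pool.Agent.K1H54.L3

open Pool.Agent.K1H54 Pool.Agent.K1H54.L2

lemma cf_iff {V : (Fin 3 → ℤ) → St.E} : St.Cf V ↔ Pool.Agent.Y5.D.OT V :=
  ⟨fun h => ⟨h.odd, h.tan⟩, fun h => ⟨h.odd, h.tan⟩⟩

lemma field_iff {v : St.E → St.E} : St.Fld v ↔ Pool.Agent.Y5.D.PF v := by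
  constructor
  · rintro ⟨V, h1, h2, h3⟩
    exact ⟨V, cf_iff.1 h1, h2, h3⟩
  · rintro ⟨V, h1, h2, h3⟩
    exact ⟨V, cf_iff.2 h1, h2, h3⟩

lemma trig_iff {v : St.E → St.E} : St.Trig v ↔ Pool.Agent.Y5.E.TP v := by
  constructor
  · rintro ⟨V, h1, h2, h3⟩
    exact ⟨V, cf_iff.1 h1, h2, h3⟩
  · rintro ⟨V, h1, h2, h3⟩
    exact ⟨V, cf_iff.2 h1, h2, h3⟩

lemma sol_iff {ν α T : ℝ} {N : (St.E → St.E) → (St.E → St.E) → St.E → St.E}
    {u : ℝ → St.E → St.E} : St.Sol ν α N T u ↔ SolA ν α N T u := by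
  constructor
  · rintro ⟨⟨V, h1, h2⟩, h3⟩
    exact ⟨⟨V, fun t ht => ⟨cf_iff.1 (h1 t ht).1, (h1 t ht).2⟩, h2⟩,
      fun z hz t ht => h3 z (trig_iff.2 hz) t ht⟩
  · rintro ⟨⟨V, h1, h2⟩, h3⟩
    exact ⟨⟨V, fun t ht => ⟨cf_iff.2 (h1 t ht).1, (h1 t ht).2⟩, h2⟩,
      fun z hz t ht => h3 z (trig_iff.1 hz) t ht⟩

lemma cop_of {s M : ℝ} {A : (St.E → St.E) → (St.E → St.E) → St.E → St.E} (h : St.Cons A)
    (hb : ∀ v w, St.Fld v → St.Fld w → ∀ X, (∀ y, ‖v y‖ ≤ X) →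
      √(St.ip (A v w) (A v w)) ≤ M * ((X + St.wie (s - 1) v) * √(St.dir w))) : COp s M A where
  field := fun v w hv hw => field_iff.1 (h.field v w (field_iff.2 hv) (field_iff.2 hw))
  add1 := fun v v' w hv hv' hw => h.add1 v v' w (field_iff.2 hv) (field_iff.2 hv') (field_iff.2 hw)
  smul1 := fun a v w hv hw => h.smul1 a v w (field_iff.2 hv) (field_iff.2 hw)
  add2 := fun v w w' hv hw hw' => h.add2 v w w' (field_iff.2 hv) (field_iff.2 hw) (field_iff.2 hw')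
  smul2 := fun a v w hv hw => h.smul2 a v w (field_iff.2 hv) (field_iff.2 hw)
  energy := fun v w hv hw => h.energy v w (field_iff.2 hv) (field_iff.2 hw)
  bound := fun v w hv hw => hb v w (field_iff.2 hv) (field_iff.2 hw)
  low := by
    obtain ⟨C, hC⟩ := h.low
    exact ⟨C, fun v w hv hw => hC v w (field_iff.2 hv) (field_iff.2 hw)⟩

lemma cons_of {s δ N₁ : ℝ} {B : (St.E → St.E) → (St.E → St.E) → St.E → St.E}
    (h : LOp2 s δ N₁ B) : St.Cons B where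
  field := fun v w hv hw => field_iff.2 (h.field v w (field_iff.1 hv) (field_iff.1 hw))
  add1 := fun v v' w hv hv' hw => h.add1 v v' w (field_iff.1 hv) (field_iff.1 hv') (field_iff.1 hw)
  smul1 := fun a v w hv hw => h.smul1 a v w (field_iff.1 hv) (field_iff.1 hw)
  add2 := fun v w w' hv hw hw' => h.add2 v w w' (field_iff.1 hv) (field_iff.1 hw) (field_iff.1 hw')
  smul2 := fun a v w hv hw => h.smul2 a v w (field_iff.1 hv) (field_iff.1 hw)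
  energy := fun v w hv hw => h.energy v w (field_iff.1 hv) (field_iff.1 hw)
  low := by
    obtain ⟨C, hC⟩ := h.low
    exact ⟨C, fun v w hv hw => hC v w (field_iff.1 hv) (field_iff.1 hw)⟩

open Pool.Agent.K1H54.St in
theorem v3' : ∀ (δ s α N₁ s₀ M : ℝ) (A : (E → E) → (E → E) → E → E), 0 < δ → 1 / 2 < s → s < 1 →
    0 ≤ α → 2 * α < s + 3 / 2 → s₀ < s → Cons A →
    (∀ v w, Fld v → Fld w → ∀ X, (∀ y, ‖v y‖ ≤ X) →
      √(St.ip (A v w) (A v w)) ≤ M * ((X + wie (s₀ - 1) v) * √(St.dir w))) →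
    ∃ B : (E → E) → (E → E) → E → E, Cons B ∧
      (∀ v w, Fld v → Fld w → √(St.ip (B v w) (B v w)) ≤ δ * (wie (s - 1) v * √(St.dir w))) ∧
      (∀ v w, Fld v → Fld w → (∀ k, N₁ ≤ ‖fq k‖ → hat v k = 0) → B v w = 0) ∧
      (∀ v w, Fld v → Fld w → (∀ k, N₁ ≤ ‖fq k‖ → hat w k = 0) →
        ∀ k, ¬ N₁ ≤ ‖fq k‖ → hat (B v w) k = 0) ∧
      ∀ ν η s₁ : ℝ, 0 ≤ ν → 0 < η → s₁ < s + 3 / 2 - 2 * α → ∃ (T : ℝ) (u : ℝ → E → E),
        0 < T ∧ T ≤ η ∧ Sol ν α (fun v w => A v w + B v w) T u ∧ Trig (u 0) ∧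
        St.sob s₁ (u 0) ≤ η ∧
        (∀ (T' : ℝ) (v : ℝ → E → E), 0 < T' → Sol ν α (fun v w => A v w + B v w) T' v →
          v 0 = u 0 → T' ≤ T ∧ ∀ t ∈ Ico 0 T', v t = u t) ∧
        (∀ t ∈ Ico 0 T, HasDerivWithinAt (fun τ => St.ip (u τ) (u τ))
          (-(2 * (ν * St.sob α (u t)))) (Ico 0 T) t) ∧
        ∀ K : ℝ, ∃ t ∈ Ico 0 T, ∃ y, K < ‖u t y‖ := by
  intro δ s α N₁ s₀ M A hδ hs hs' hα hα' hs₀ hA hb
  obtain ⟨B, hB, hmain⟩ := v3 δ s α N₁ s₀ M A hδ hs hs' hα hα' hs₀ (cop_of hA hb)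
  refine ⟨B, cons_of hB, fun v w hv hw => hB.small v w (field_iff.1 hv) (field_iff.1 hw),
    fun v w hv hw => hB.high1 v w (field_iff.1 hv) (field_iff.1 hw),
    fun v w hv hw => hB.high2 v w (field_iff.1 hv) (field_iff.1 hw), ?_⟩
  intro ν η s₁ hν hη hs₁
  obtain ⟨T, u, h1, h2, h3, h4, h5, h6, h7, h8⟩ := hmain ν η s₁ hν hη hs₁
  exact ⟨T, u, h1, h2, sol_iff.2 h3, trig_iff.2 h4, h5,
    fun T' v hT' hv hv0 => h6 T' v hT' (sol_iff.1 hv) hv0, h7, h8⟩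

end Pool.Agent.K1H54.L3
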