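import Pool.Agent.K1H54.LO.Defs3

/-!
Third version: perturbations of arbitrary conservative equations of the strength of the
Navier-Stokes equations.
-/

open Set Filter Topology MeasureTheory

set_option autoImplicit false

namespace Pool.Agent.K1H54.L3

open Pool.Agent.Y5 Pool.Agent.Y5.D Pool.Agent.Y5.E Pool.Agent.K1H54.LO Pool.Agent.K1H54.L2

/-- `A` is a conservative bilinear operator on the smooth odd periodic divergence-free fields,
`∫ A(v, w) · w = 0`, with `‖A(v, w)‖ ≤ M (sup |v| + ∑ |k|^(s-1) |v̂ k|) ‖∇ w‖` and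
`‖A(v, w)‖ ≤ C ‖v‖ ∑ |k| |ŵ k|` (norms of `L²`). -/
structure COp (s M : ℝ) (A : (E3 → E3) → (E3 → E3) → E3 → E3) : Prop where
  field : ∀ v w, PF v → PF w → PF (A v w)
  add1 : ∀ v v' w, PF v → PF v' → PF w → A (v + v') w = A v w + A v' w
  smul1 : ∀ (a : ℝ) (v w : E3 → E3), PF v → PF w → A (a • v) w = a • A v w
  add2 : ∀ v w w', PF v → PF w → PF w' → A v (w + w') = A v w + A v w'
  smul2 : ∀ (a : ℝ) (v w : E3 → E3), PF v → PF w → A v (a • w) = a • A v w
  energy : ∀ v w, PF v → PF w → ip (A v w) w = 0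
  bound : ∀ v w, PF v → PF w → ∀ X, (∀ y, ‖v y‖ ≤ X) →
    √(ip (A v w) (A v w)) ≤ M * ((X + wie (s - 1) v) * √(dir w))
  low : ∃ C, ∀ v w, PF v → PF w → √(ip (A v w) (A v w)) ≤ C * (√(ip v v) * wie 1 w)

/-- The main theorem: let `A` be a conservative bilinear operator of the strength of the
nonlinearity of the Navier-Stokes equations, up to terms of order `s₀ < s`. Then there are
conservative bilinear operators `B` of order `s` with norm at most `δ`, acting only on the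
frequencies `|k| ≥ N₁`, such that for all viscosities `ν` the equations
`∂ₜ u + (u · ∇) u + ∇p = - ν (-Δ)^α u + A(u, u) + B(u, u)` have smooth solutions which blow up. -/
def S_MAIN3 : Prop := ∀ (δ s α N₁ s₀ M : ℝ) (A : (E3 → E3) → (E3 → E3) → E3 → E3), 0 < δ →
  1 / 2 < s → s < 1 → 0 ≤ α → 2 * α < s + 3 / 2 → s₀ < s → COp s₀ M A →
  ∃ B : (E3 → E3) → (E3 → E3) → E3 → E3, LOp2 s δ N₁ B ∧
  ∀ ν η s₁ : ℝ, 0 ≤ ν → 0 < η → s₁ < s + 3 / 2 - 2 * α → ∃ (T : ℝ) (u : ℝ → E3 → E3),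
    0 < T ∧ T ≤ η ∧ SolA ν α (fun v w => A v w + B v w) T u ∧ TP (u 0) ∧ sob s₁ (u 0) ≤ η ∧
    -- uniqueness, and `T` is the maximal time of existence
    (∀ (T' : ℝ) (v : ℝ → E3 → E3), 0 < T' → SolA ν α (fun v w => A v w + B v w) T' v →
      v 0 = u 0 → T' ≤ T ∧ ∀ t ∈ Ico 0 T', v t = u t) ∧
    -- the energy identity
    (∀ t ∈ Ico 0 T, HasDerivWithinAt (fun τ => ip (u τ) (u τ)) (-(2 * (ν * sob α (u t))))
      (Ico 0 T) t) ∧
    -- blow-up of the velocity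
    ∀ M : ℝ, ∃ t ∈ Ico 0 T, ∃ y, M < ‖u t y‖

end Pool.Agent.K1H54.L3
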