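import Pool.Agent.K1H54.LO3.Op4
import Pool.Agent.K1H54.LO.V2

/-!
Assembly of the main theorem (third version).
-/

open Set Filter Topology MeasureTheory

set_option autoImplicit false

namespace Pool.Agent.K1H54.L3

open Pool.Agent.Y5 Pool.Agent.Y5.D Pool.Agent.Y5.E Pool.Agent.K1H54.LO Pool.Agent.K1H54.L2
open Pool.Agent.K1H21.LO (SF mem_SF card_SF inv_sqm fv_mem fv_zero)
open Pool.Agent.Y274.NE (t_FLD2 sob_eq)

section
variable {I : Type} {sh : I → ℕ} {g : I → Fam} {n₀ : ℕ}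

lemma Sy_ext (z : Sub sh n₀ → ℝ) : ∃ w : I → ℝ, Sy (fun i : Sub sh n₀ => g i) z = Sy g w := by
  classical
  refine ⟨fun i => if hi : n₀ ≤ sh i then z ⟨i, hi⟩ else 0,
    Pool.Agent.K1H30.OP2.Sy_sub z _ (fun i => ?_) (fun i hi => ?_)⟩
  · rw [dif_pos i.2]
  · rw [dif_neg hi]

end

/-- Assembly of the main theorem. -/
theorem main3 (hGEO : S_GEO2) (hOP : S_OP2) (hEX : S_EX2) (hSUB : S_SUB) (hUNI : S_UNID) :
    S_MAIN3 := by
  intro δ s α N₁ s₀ M₀ A hδ hs hs' hα hα' hs₀ hA₀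
  have hpi := Real.pi_pos
  obtain ⟨C₀, hC₀, hTF⟩ := tfm_tf hA₀
  set M' : ℝ := 2 * Real.pi * |M₀| with hM'
  have hM'0 : 0 ≤ M' := by positivity
  -- the smallness parameters
  set δ₁ : ℝ := min (δ / 2) (δ / (M' + 1)) with hδ₁
  have hδ₁0 : 0 < δ₁ := lt_min (by positivity) (by positivity)
  set θ : ℝ := δ / (12 * (M' + 1)) with hθ
  have hθ0 : 0 < θ := by positivity
  obtain ⟨N₀, hN₀⟩ : ∃ N₀ : ℝ, ∀ x, N₀ ≤ x → x ^ (s₀ - s) ≤ θ := by
    have h1 : Tendsto (fun x : ℝ => x ^ (-(s - s₀))) atTop (𝓝 0) :=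
      tendsto_rpow_neg_atTop (by linarith)
    have h2 := (h1.eventually (gt_mem_nhds hθ0)).exists_forall_of_atTop
    obtain ⟨a, ha⟩ := h2
    refine ⟨a, fun x hx => ?_⟩
    have := ha x hx
    rw [show s₀ - s = -(s - s₀) by ring]
    exact this.le
  set N₂ : ℝ := max (max N₁ 1) N₀ with hN₂
  have hN₂0 : N₁ ≤ N₂ := (le_max_left _ _).trans (le_max_left _ _)
  have hN₂1 : 1 ≤ N₂ := (le_max_right _ _).trans (le_max_left _ _)
  have hN₂θ : N₂ ^ (s₀ - s) ≤ θ := hN₀ _ (le_max_right _ _)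
  obtain ⟨I, sh, ty, ρ, g, S, R, N, c₀, lam, hlam, hMS, hMX, hpar⟩ :=
    hGEO s α (δ₁ / 40) N₂ hs hs' hα hα' (by positivity)
  set ε : ℝ := Real.exp (-(400 * lam)) with hε
  have hε0 : 0 ≤ ε := (Real.exp_pos _).le
  have hε1 : ε ≤ 1 := by
    rw [hε]
    apply Real.exp_le_one_iff.2
    linarith
  obtain ⟨⟨C, hF⟩, hsharp⟩ := hOP I sh ty ρ g S R N s N₂ δ₁ c₀ lam ε hs hs' hδ₁0 hN₂1 hε0 hε1 hMS
  have hmd := Pool.Agent.K1H30.OP2.md_of hMS
  set β₀ : Fam → Fam → Fam → ℝ := tfm A with hβ₀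
  have hFz := bz_fpert hTF hM'0 hC₀ hmd (δ := δ₁ / 40) (by positivity) hN₂1 hMS.big
    (by linarith) hs₀.le hMS.sup
  -- the total bound
  have hsum : δ₁ + 3 * M' * (δ₁ / 40 + N₂ ^ (s₀ - s)) ≤ δ := by
    have e1 : δ₁ ≤ δ / 2 := min_le_left _ _
    have e2 : δ₁ ≤ δ / (M' + 1) := min_le_right _ _
    have e3 : M' * δ₁ ≤ δ := by
      rw [le_div_iff₀ (by positivity)] at e2
      nlinarith
    have e4 : M' * N₂ ^ (s₀ - s) ≤ δ / 12 := by
      calc M' * N₂ ^ (s₀ - s) ≤ M' * θ := by gcongr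
        _ ≤ (M' + 1) * θ := by gcongr; linarith
        _ = δ / 12 := by rw [hθ]; field_simp
    have e5 : 3 * M' * (δ₁ / 40 + N₂ ^ (s₀ - s)) = 3 / 40 * (M' * δ₁) + 3 * (M' * N₂ ^ (s₀ - s)) := by
      ring
    rw [e5]
    linarith
  set β₁ : Fam → Fam → Fam → ℝ := fun V W Z => bQ sh ty ρ g lam ε c₀ V W Z + bz g β₀ V W Z with hβ₁
  have hF₁ := fpert_add hF hFz
  have hsharp₁ : ∀ V W Z, OT V → Rap V → OT W → Rap W → OT Z → Rap Z →
      |β₁ V W Z| ≤ δ * (A1 (s - 1) V * h1 W) * l2 Z := by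
    intro V W Z hV hVr hW hWr hZ hZr
    have e1 := hsharp V W Z hV hVr hW hWr hZ hZr
    have e2 := bz_small hTF hM'0 hmd (δ := δ₁ / 40) (by positivity) hN₂1 hMS.big
      (by linarith) hs₀.le hMS.sup hVr hW hWr hZ hZr
    have n1 := Pool.Agent.K1H30.OP.A1_nonneg (s - 1) V
    have n2 := Pool.Agent.K1H30.OP.h1_nonneg W
    have n3 := Pool.Agent.K1H30.OP.l2_nonneg Z
    refine (abs_add_le _ _).trans ((add_le_add e1 e2).trans ?_)
    calc _ = (δ₁ + 3 * M' * (δ₁ / 40 + N₂ ^ (s₀ - s))) * (A1 (s - 1) V * h1 W) * l2 Z := by ring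
      _ ≤ _ := by gcongr
  have hθ1 : 0 ≤ δ₁ + 3 * M' * (δ₁ / 40 + N₂ ^ (s₀ - s)) := by
    have : (0 : ℝ) < N₂ := by linarith
    positivity
  obtain ⟨Bo, hBo, hrep₁⟩ := t_LOP s _ _ (fun k => N₂ ≤ ‖vec k‖) β₁ hθ1
    (fun k hk => by rwa [vec_neg', norm_neg]) hF₁
  have hLOp2 : LOp2 s δ N₁ Bo := by
    refine ⟨hBo.field, hBo.add1, hBo.smul1, hBo.add2, hBo.smul2, hBo.energy, ?_, hBo.low, ?_, ?_⟩
    · intro v w hv hw
      have hb := hBo.field v w hv hw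
      obtain ⟨v1, v2, v3⟩ := pf_cf hv
      obtain ⟨w1, w2, w3⟩ := pf_cf hw
      obtain ⟨b1, b2, b3⟩ := pf_cf hb
      have h1 := hrep₁ (cf v) (cf w) (cf (Bo v w)) v1 v2 w1 w2 b1 b2
      rw [v3, w3, b3, ip_cf hb hb, pair_self_eq] at h1
      have h2 := hsharp₁ (cf v) (cf w) (cf (Bo v w)) v1 v2 w1 w2 b1 b2
      rw [sqrt_ip hb]
      have hw0 : 0 ≤ wie (s - 1) v := tsum_nonneg fun _ => by positivity
      have hlb : 0 ≤ l2 (cf (Bo v w)) := Real.sqrt_nonneg _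
      refine l2_zero_of_le (by positivity) ?_
      rw [h1]
      refine (le_abs_self _).trans (h2.trans ?_)
      have h3 := h1_le_dir hw
      have e2 : A1 (s - 1) (cf v) = wie (s - 1) v := rfl
      rw [e2]
      gcongr
    · intro v w hv hw h0
      exact hBo.thin1 v w hv hw fun k hk => h0 k (hN₂0.trans hk)
    · intro v w hv hw h0 k hk
      exact hBo.thin2 v w hv hw (fun k hk => h0 k (hN₂0.trans hk)) k
        fun h => hk (hN₂0.trans h)
  refine ⟨Bo, hLOp2, ?_⟩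
  -- the full form
  set β : Fam → Fam → Fam → ℝ := fun V W Z => β₀ V W Z + β₁ V W Z with hβ
  have hFβ : ∃ δ' C', FPert 1 δ' C' (fun _ => True) β :=
    ⟨_, _, fpert_add (tf_fpert (by linarith) hM'0 hTF) (fpert_mono hs'.le hθ1 hF₁)⟩
  obtain ⟨δ', C', hFβ⟩ := hFβ
  set Bt : (E3 → E3) → (E3 → E3) → E3 → E3 := fun v w => A v w + Bo v w with hBt
  have hrep : ∀ V W Z, OT V → Rap V → OT W → Rap W → OT Z → Rap Z →
      ip (Bt (fieldOf V) (fieldOf W)) (fieldOf Z) = β V W Z := by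
    intro V W Z hV hVr hW hWr hZ hZr
    rw [hBt, hβ]
    simp only
    rw [← hrep₁ V W Z hV hVr hW hWr hZ hZr, ip_add_left
      (hA₀.field _ _ (pf_of hV hVr) (pf_of hW hWr))
      (hBo.field _ _ (pf_of hV hVr) (pf_of hW hWr)) (pf_of hZ hZr)]
    rfl
  intro ν η s₁ hν hη hs₁
  obtain ⟨n₀, a₀, ha₀, hd, hsb, hT1⟩ := hpar ν η s₁ hν hη hs₁
  obtain ⟨hMS', hsub⟩ := hSUB I sh ty ρ g S R N s N₂ (δ₁ / 40) c₀ lam ε n₀ hN₂1 hMS
  set sh' : Sub sh n₀ → ℕ := fun i => sh i - n₀ with hsh'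
  set ty' : Sub sh n₀ → Bool := fun i => ty i with hty'
  set ρ' : ℕ → ℕ := fun n => ρ (n₀ + n) with hρ'
  set g' : Sub sh n₀ → Fam := fun i => g i with hg'
  set S' : Sub sh n₀ → Finset Z3 := fun i => S i with hS'
  set R' : Sub sh n₀ → ℝ := fun i => R i with hR'
  set N' : ℕ → ℝ := fun n => N (n₀ + n) with hN'
  set c₁ : ℝ := c₀ * lam ^ n₀ with hc₁
  have hMX' : MX ty' ρ' g' lam y0 :=
    ⟨fun n => hMX.mlo (n₀ + n), fun n => hMX.mup (n₀ + n), fun i hi => hMX.lo i hi,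
      fun i => hMX.up i⟩
  have hc₁0 : 0 < c₁ := hMS'.c0
  have hRpos : ∀ i, 0 ≤ R' i := fun i =>
    (zero_le_one.trans (hMS'.N1 (sh' i))).trans (hMS'.size i).1
  obtain ⟨T, z, hT, hTle, hA, hRa, hz0, hGrow⟩ := t_MOD2 (Sub sh n₀) sh' ty' ρ'
    (fun i => ν * (2 * Real.pi * R' i) ^ (2 * α))
    (fun n => ν * (2 * Real.pi * (2 * N' n)) ^ (2 * α))
    lam ε c₁ a₀ hMS'.shl (fun i => ⟨by have := hRpos i; positivity, by
      have h1 := (hMS'.size i).2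
      have h2 := hRpos i
      refine mul_le_mul_of_nonneg_left ?_ hν
      apply Real.rpow_le_rpow (by positivity) _ (by positivity)
      gcongr⟩)
    ⟨hlam, hε, mul_pos hc₁0 ha₀, fun n => by
      have := hMS'.N1 n
      positivity, hd⟩ hc₁0 ha₀
  have hSym : Sym (dsy ν α) := dsy_sym hν hα (by linarith)
  have hV' := hEX (Sub sh n₀) sh' ty' ρ' g' S' R' N' s N₂ (δ₁ / 40) c₁ lam ε (by positivity) hN₂1
    hε0 hε1 hMS' (dsy ν α) (fun i => ν * (2 * Real.pi * R' i) ^ (2 * α)) hSym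
    (fun i k hk => by unfold dsy; rw [hMS'.sph i k hk]) T z hT hA hRa
  set V : ℝ → Fam := fun t => Sy g' (fun i => z i t) with hVd
  have hV : FSolD (dsy ν α) β T V := by
    refine ⟨hV'.ot, hV'.rap, fun Z hZ hf t ht => ?_⟩
    obtain ⟨w, hw⟩ := Sy_ext (g := g) (fun i : Sub sh n₀ => z i t)
    have e1 : V t = Sy g w := hw
    have e2 : β (V t) (V t) Z = bQ sh ty ρ g lam ε c₀ (V t) (V t) Z := by
      rw [hβ, hβ₁]
      simp only
      rw [e1, bz_Sy hmd]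
      ring
    rw [e2, hsub (fun i => z i t) Z (rap_of_unif hV'.rap ht) hZ hf]
    exact hV'.eqn Z hZ hf t ht
  have hu := (t_SOLD T (dsy ν α) β Bt hSym hrep).1 V hV
  have hV0 : V 0 = Sy g' (fun i => a₀ * fv sh' ty' ρ' true 0 i) := by
    rw [hVd]
    simp only [hz0]
  have h0T : (0 : ℝ) ∈ Ico 0 T := ⟨le_rfl, hT⟩
  have hfin0 : {k | V 0 k ≠ 0}.Finite := by
    rw [hV0]
    refine Sy_fin hMS' (SF hMS'.shl true 0) fun i hi => ?_
    rw [fv_zero hMS'.shl true 0 i hi, mul_zero]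
  have hRapV : ∀ t ∈ Ico 0 T, Rap (V t) := fun t ht => rap_of_unif hV.rap ht
  -- blow-up
  have hblow : ∀ M : ℝ, ∃ t ∈ Ico 0 T, ∃ y, M < ‖fieldOf (V t) y‖ := by
    intro M
    have hm : ∀ n, (100 : ℝ) ^ n ≤ √(ρ' n : ℝ) := by
      intro n
      induction n with
      | zero =>
        rw [pow_zero, Real.one_le_sqrt]
        exact_mod_cast hMS'.shl.pos 0
      | succ n ih =>
        calc (100 : ℝ) ^ (n + 1) = 100 * 100 ^ n := by ring
          _ ≤ 10000 * √(ρ' n : ℝ) := by gcongr; norm_num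
          _ ≤ _ := hMX'.mlo n
    obtain ⟨n, hn⟩ := pow_unbounded_of_one_lt (4 * (M / a₀)) (one_lt_two (α := ℝ))
    obtain ⟨t, ht, a, ha1, ha2, ha3, ha4, ha5⟩ := hGrow n
    have hq : (0 : ℝ) < (1 - 1 / 10 ^ 5) ^ n := by positivity
    have ha : 0 < a := hq.trans_le ha1
    have hzk : Sk (fun i => lam ^ sh' i) 0 (fun i => z i t) :=
      (hRa 0 t ht.2).choose_spec t ⟨ht.1, le_rfl⟩ |>.1
    have hz2 : Summable fun i => z i t ^ 2 := by
      unfold Sk at hzk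
      simpa using hzk
    have hE : ∀ (x y : ℝ), x / a₀ ^ 2 ≤ y → x ≤ a₀ ^ 2 * y := fun x y h => by
      rwa [div_le_iff₀ (by positivity), mul_comm] at h
    have hsq : ∀ (x y : ℝ), √(x / a₀ ^ 2) ≤ y → √x ≤ a₀ * y := fun x y h => by
      rw [Real.sqrt_div' _ (by positivity), Real.sqrt_sq ha₀.le, div_le_iff₀ ha₀, mul_comm] at h
      exact h
    have hy := vel2 hMS' hMX' hlam (z := fun i => z i t) (n := n) (a := a₀ * a) hz2
      (hRapV t ht) (by positivity)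
      (by
        simp only at ha2
        rw [div_eq_iff ha₀.ne'] at ha2
        rw [ha2]; ring)
      (by
        refine (hE _ _ ha3).trans (le_of_eq ?_)
        ring)
      (fun i hi => by
        refine (hsq _ _ (ha4 i hi)).trans (le_of_eq ?_)
        ring)
      (fun j => by
        refine (hsq _ _ (ha5 j)).trans (le_of_eq ?_)
        ring)
    refine ⟨t, ht, y0, lt_of_lt_of_le ?_ hy⟩
    have h5 : (2 : ℝ) ^ n ≤ √(ρ' n : ℝ) * a := by
      calc (2 : ℝ) ^ n ≤ (100 * (1 - 1 / 10 ^ 5)) ^ n := by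
            gcongr
            norm_num
        _ = 100 ^ n * (1 - 1 / 10 ^ 5) ^ n := mul_pow _ _ _
        _ ≤ √(ρ' n : ℝ) * a := by
            have := hm n
            gcongr
    have h6 : 4 * (M / a₀) < √(ρ' n : ℝ) * a := hn.trans_le h5
    have h7 : 4 * (M / a₀) = 4 * M / a₀ := by ring
    rw [h7, div_lt_iff₀ ha₀] at h6
    linarith
  refine ⟨T, fun t => fieldOf (V t), hT, hTle.trans ?_, solA_iff.2 hu, ?_, ?_, ?_, ?_, ?_⟩
  · exact hT1
  · -- trigonometric polynomial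
    exact tp_iff.2 ⟨V 0, hV.ot 0 h0T, hfin0, rfl⟩
  · -- Sobolev norm of the datum
    change sob s₁ (fieldOf (V 0)) ≤ η
    rw [sob_eq t_FLD2 s₁ (V 0) (hV.ot 0 h0T) (hRapV 0 h0T), hV0]
    refine sob_fv hMS' fun i hi => hsb i ?_
    have h1 := i.2
    have h2 : sh i - n₀ = 0 := hi
    omega
  · -- uniqueness
    intro T' v hT' hv hv0
    obtain ⟨W, hW, hvW⟩ := (t_SOLD T' (dsy ν α) β Bt hSym hrep).2 v (solA_iff.1 hv)
    have h0T' : (0 : ℝ) ∈ Ico 0 T' := ⟨le_rfl, hT'⟩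
    have hRapW : ∀ t ∈ Ico 0 T', Rap (W t) := fun t ht => rap_of_unif hW.rap ht
    have hWV : ∀ k, V 0 k = W 0 k := by
      intro k
      rw [← cf_fieldOf (hV.ot 0 h0T) (hRapV 0 h0T), ← cf_fieldOf (hW.ot 0 h0T') (hRapW 0 h0T'),
        ← hvW 0 h0T', hv0]
    have hun := (hUNI 1 δ' C' (min T T') (dsy ν α) (fun _ => True) β hSym hFβ).1 V W
      (hV.restrict (min_le_left _ _)) (hW.restrict (min_le_right _ _)) hWV
    have heq : ∀ t ∈ Ico 0 (min T T'), v t = fieldOf (V t) := by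
      intro t ht
      rw [hvW t ⟨ht.1, ht.2.trans_le (min_le_right _ _)⟩]
      congr 1
      funext k
      exact (hun t ht k).symm
    have hle : T' ≤ T := by
      by_contra hlt
      push Not at hlt
      obtain ⟨M, hM⟩ := exBD hW hlt
      obtain ⟨t, ht, y, hy⟩ := hblow (M * ∑' k, Pool.Agent.Y301.G.wt k)
      have h5 : t ∈ Ico 0 (min T T') := ⟨ht.1, lt_min ht.2 (ht.2.trans hlt)⟩
      have h6 := field_le (W t) (hM t ⟨ht.1, ht.2.le⟩) y
      rw [← hvW t ⟨ht.1, ht.2.trans hlt⟩, heq t h5] at h6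
      linarith
    exact ⟨hle, fun t ht => heq t ⟨ht.1, lt_min (ht.2.trans_le hle) ht.2⟩⟩
  · -- energy identity
    intro t ht
    have h3 := (hUNI 1 δ' C' T (dsy ν α) (fun _ => True) β hSym hFβ).2 V hV t ht
    have h4 : ν * sob α (fieldOf (V t)) = lpD (dsy ν α) (V t) (V t) := by
      rw [sob_eq t_FLD2 α (V t) (hV.ot t ht) (hRapV t ht)]
      unfold lpD dsy
      rw [← tsum_mul_left]
      exact tsum_congr fun k => by rw [real_inner_self_eq_norm_sq]; ring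
    rw [h4]
    refine h3.congr (fun τ hτ => ?_) ?_
    · exact t_FLD2.1.1 (V τ) (V τ) (hV.ot τ hτ) (hRapV τ hτ) (hV.ot τ hτ) (hRapV τ hτ)
    · exact t_FLD2.1.1 (V t) (V t) (hV.ot t ht) (hRapV t ht) (hV.ot t ht) (hRapV t ht)
  · exact hblow

theorem v3 : S_MAIN3 :=
  main3 (t_GEO2 Pool.Agent.K1H52.LO.t_GRP t_SGN)
    (Pool.Agent.K1H30.OP2.t_OP2 Pool.Agent.K1H52.LO.t_TRI) Pool.Agent.K1H30.OP2.t_EX2
    Pool.Agent.K1H30.OP2.t_SUB t_UNID

end Pool.Agent.K1H54.L3
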