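import Pool.Agent.K1H54.LO3.Defs4
import Pool.Agent.K1H54.LO3.Bz

/-!
The trilinear form of an operator.
-/

open Set Filter Topology MeasureTheory

set_option autoImplicit false

namespace Pool.Agent.K1H54.L3

open Pool.Agent.Y5 Pool.Agent.Y5.D Pool.Agent.Y5.E Pool.Agent.K1H54.LO Pool.Agent.K1H54.L2
open Pool.Agent.K1H30.OP (l2_nonneg h1_nonneg A1_nonneg rap_add rap_neg ot_add ot_neg pair_add
  pair_neg sumr cs sq0)
open Pool.Agent.Y274.NE (t_FLD2)

lemma pair_cs {G Z : Fam} (hG : Rap G) (hZ : Rap Z) : |pair G Z| ≤ l2 G * l2 Z := by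
  have h1 := cs (f := fun k => ‖G k‖) (g := fun k => ‖Z k‖) (sq0 hG) (sq0 hZ)
  simp only [abs_norm] at h1
  unfold pair
  refine le_trans ?_ h1.2
  have h2 : ∀ k, ‖(inner ℝ (G k) (Z k) : ℝ)‖ ≤ ‖G k‖ * ‖Z k‖ := fun k => norm_inner_le_norm _ _
  have h3 := Summable.of_nonneg_of_le (fun k => norm_nonneg _) h2 h1.1
  rw [← Real.norm_eq_abs]
  exact (norm_tsum_le_tsum_norm h3).trans (h3.tsum_le_tsum h2 h1.1)

lemma ip_comm' {v w : E3 → E3} (hv : PF v) (hw : PF w) : ip v w = ip w v := by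
  rw [ip_cf hv hw, ip_cf hw hv, Pool.Agent.K1H54.LO.pair_comm]

lemma ip_add_right {v w z : E3 → E3} (hv : PF v) (hw : PF w) (hz : PF z) :
    ip z (v + w) = ip z v + ip z w := by
  rw [ip_comm' hz (pf_add hv hw).1, ip_add_left hv hw hz, ip_comm' hv hz, ip_comm' hw hz]

lemma dir_h1 {V : Fam} (hV : OT V) (hVr : Rap V) : √(dir (fieldOf V)) = 2 * Real.pi * h1 V := by
  have hp := Real.pi_pos
  rw [t_FLD2.1.2.2 V hV hVr, Real.sqrt_mul (by positivity), Real.sqrt_sq (by positivity)]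
  rfl

/-- the trilinear form of an operator -/
noncomputable def tfm (A : (E3 → E3) → (E3 → E3) → E3 → E3) (V W Z : Fam) : ℝ :=
  ip (A (fieldOf V) (fieldOf W)) (fieldOf Z)

lemma tfm_tf {s₀ M : ℝ} {A : (E3 → E3) → (E3 → E3) → E3 → E3} (h : COp s₀ M A) :
    ∃ C, 0 ≤ C ∧ TF s₀ (2 * Real.pi * |M|) C (tfm A) := by
  obtain ⟨C, hC⟩ := h.low
  have hp := Real.pi_pos
  refine ⟨|C|, abs_nonneg _, ?_, ?_, ?_, ?_, ?_, ?_⟩
  · intro V W hV hVr hW hWr
    have hb := h.field _ _ (pf_of hV hVr) (pf_of hW hWr)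
    obtain ⟨b1, b2, b3⟩ := pf_cf hb
    refine ⟨_, b1, b2, fun Z hZ hZr => ?_⟩
    unfold tfm
    rw [ip_cf hb (pf_of hZ hZr), cf_fieldOf hZ hZr]
  · intro V V' W Z hV hVr hV' hVr' hW hWr hZ hZr
    unfold tfm
    rw [fieldOf_add hVr hVr', h.add1 _ _ _ (pf_of hV hVr) (pf_of hV' hVr') (pf_of hW hWr),
      ip_add_left (h.field _ _ (pf_of hV hVr) (pf_of hW hWr))
        (h.field _ _ (pf_of hV' hVr') (pf_of hW hWr)) (pf_of hZ hZr)]
  · intro a V W Z hV hVr hW hWr hZ hZr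
    unfold tfm
    rw [fieldOf_smul, h.smul1 a _ _ (pf_of hV hVr) (pf_of hW hWr),
      ip_smul_left a (h.field _ _ (pf_of hV hVr) (pf_of hW hWr)) (pf_of hZ hZr)]
  · intro V W Z hV hVr hW hWr hZ hZr
    unfold tfm
    have v := pf_of hV hVr
    have w := pf_of hW hWr
    have z := pf_of hZ hZr
    have wz := (pf_add w z).1
    have aw := h.field _ _ v w
    have az := h.field _ _ v z
    have h1 := h.energy _ _ v wz
    rw [h.add2 _ _ _ v w z, ip_add_left aw az wz, ip_add_right w z aw, ip_add_right w z az,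
      h.energy _ _ v w, h.energy _ _ v z] at h1
    linarith
  · intro V W Z hV hVr hW hWr hZ hZr X hX
    have v := pf_of hV hVr
    have w := pf_of hW hWr
    have z := pf_of hZ hZr
    have aw := h.field _ _ v w
    have k1 := h.bound _ _ v w X hX
    have hX0 : 0 ≤ X := (norm_nonneg _).trans (hX 0)
    rw [sqrt_ip aw, dir_h1 hW hWr] at k1
    have e2 : wie (s₀ - 1) (fieldOf V) = A1 (s₀ - 1) V := by
      unfold wie A1
      rw [cf_fieldOf hV hVr]
    rw [e2] at k1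
    unfold tfm
    rw [ip_cf aw z, cf_fieldOf hZ hZr]
    have h2 := pair_cs (pf_cf aw).2.1 hZr
    have n1 := A1_nonneg (s₀ - 1) V
    have n2 := h1_nonneg W
    have n3 := l2_nonneg Z
    refine h2.trans (mul_le_mul_of_nonneg_right (k1.trans ?_) n3)
    calc M * ((X + A1 (s₀ - 1) V) * (2 * Real.pi * h1 W))
        ≤ |M| * ((X + A1 (s₀ - 1) V) * (2 * Real.pi * h1 W)) := by
          gcongr
          exact le_abs_self M
      _ = _ := by ring
  · intro V W Z hV hVr hW hWr hZ hZr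
    have v := pf_of hV hVr
    have w := pf_of hW hWr
    have z := pf_of hZ hZr
    have aw := h.field _ _ v w
    have h1 := hC _ _ v w
    rw [sqrt_ip aw, sqrt_ip v, cf_fieldOf hV hVr] at h1
    have e2 : wie 1 (fieldOf W) = A1 1 W := by
      unfold wie A1
      rw [cf_fieldOf hW hWr]
    rw [e2] at h1
    unfold tfm
    rw [ip_cf aw z, cf_fieldOf hZ hZr]
    have h2 := pair_cs (pf_cf aw).2.1 hZr
    have n1 := A1_nonneg 1 W
    have n2 := l2_nonneg V
    have n3 := l2_nonneg Z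
    refine h2.trans (mul_le_mul_of_nonneg_right (h1.trans ?_) n3)
    calc C * (l2 V * A1 1 W) ≤ |C| * (l2 V * A1 1 W) := by
          gcongr
          exact le_abs_self C
      _ = _ := by ring

end Pool.Agent.K1H54.L3
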